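import Pool.Agent.Helper53.UR.Par
import Pool.Agent.Helper56.BR.LSP
import Pool.Agent.Helper44.CTG.LN

/-!
# PROJECT UR (MP_c578c8_lc), packet LPR: the parameters are computed in linear space
-/

set_option autoImplicit false

namespace Pool.Agent.Helper45.UR

open Pool.Agent.Helper65.LinSpace Pool.Agent.Helper78.Mpc
open Pool.Agent.Helper53.UR
open Pool.Agent.Helper65.BR (bT lT)
open Pool.Agent.Helper56.BR (ls_bT ls_lT ls_accN ls_pB)
open Pool.Agent.Helper44.CTG (ls_Et)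

section

variable {α : Type} [Ctx α] {n T : α → ℕ}

theorem ls_betU (hn : LS n) (hT : LS T) : LS (fun z => betU (n z) (T z)) := by
  unfold betU
  exact LS.div hn (LS.mul (ls_lT hn hT) (ls_lT hn hT))

theorem ls_bq (hn : LS n) (hT : LS T) :
    LS (fun z => betU (n z) (T z) / (2 * (bT (n z) (T z) 1 + 1))) :=
  LS.div (ls_betU hn hT) (LS.mul (LS.const 2) (LS.add (ls_bT 1 hn hT) (LS.const 1)))

theorem ls_eU (hn : LS n) (hT : LS T) : LS (fun z => eU (n z) (T z)) := by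
  unfold eU
  exact LS.log2 (ls_bq hn hT)

theorem ls_peU (hn : LS n) (hT : LS T) : LS (fun z => 2 ^ eU (n z) (T z)) := by
  unfold eU
  exact LS.pow_log (ls_bq hn hT)

theorem ls_KU (hn : LS n) (hT : LS T) : LS (fun z => KU (n z) (T z)) := by
  unfold KU
  exact LS.add (LS.div hn (ls_lT hn hT)) (LS.const 1)

theorem ls_okU (hn : LS n) (hT : LS T) : LS (fun z => okU (n z) (T z)) := by
  unfold okU
  exact LS.mul (LS.le01 (LS.add (LS.add (ls_bT 0 hn hT) (LS.const 1))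
    (LS.mul (LS.add (ls_bT 1 hn hT) (LS.const 1)) (ls_peU hn hT))) (ls_betU hn hT))
    (LS.le01 (LS.add (ls_bT 2 hn hT) (LS.const 2)) (ls_betU hn hT))

theorem ls_bU (hn : LS n) (hT : LS T) : LS (fun z => bU (n z) (T z)) := by
  unfold bU
  exact LS.ifz (ls_okU hn hT) (LS.const 1) (ls_betU hn hT)

theorem ls_cU (hn : LS n) (hT : LS T) : LS (fun z => cU (n z) (T z)) := by
  unfold cU
  exact LS.ifz (ls_okU hn hT) (LS.const 0) (LS.add (ls_bT 2 hn hT) (LS.const 2))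

theorem ls_NU (hn : LS n) (hT : LS T) : LS (fun z => NU (n z) (T z)) := by
  unfold NU
  exact LS.mul (ls_KU hn hT) (LS.add (ls_eU hn hT) (LS.const 3))

end

theorem ls_x : LS (fun z : Qn => z.2.1) := by fun_prop

theorem ls_n : LS (fun z : Qn => z.n) := by
  unfold Qn.n
  exact LS.log2 ls_x

theorem ls_T : LS (fun z : Qn => z.T) := by
  unfold Qn.T
  fun_prop

theorem ls_p : LS (fun z : Qn => z.p) := by
  unfold Qn.p
  fun_prop

theorem ls_NFU : LS NFU := by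
  unfold NFU
  have h : LS (fun x : ℕ => x) := by fun_prop
  exact LS.mul (LS.pow_const (LS.add (LS.log2 h) (LS.const 2)) 3)
    (LS.add (LS.mul (LS.const 2) h) (LS.const 2))

theorem ls_N : LS Qn.N := ls_NU ls_n ls_T
theorem ls_q : LS Qn.q := LS.add (ls_eU ls_n ls_T) (LS.const 3)
theorem ls_b : LS Qn.b := ls_bU ls_n ls_T
theorem ls_c : LS Qn.c := ls_cU ls_n ls_T

theorem ls_W : LS Qn.W :=
  LS.capPow (LS.const 2) (ls_Et ls_N ls_q ls_b ls_c)
    (LS.pow_const (LS.add ls_x (LS.const 2)) 2000)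

theorem ls_s : LS (fun x : Qn × ℕ => x.1.s x.2) := by
  have hn : LS (fun x : Qn × ℕ => x.1.n) := LS.comp ls_n LS.fst
  have hT : LS (fun x : Qn × ℕ => x.1.T) := LS.comp ls_T LS.fst
  have hp : LS (fun x : Qn × ℕ => x.1.p) := LS.comp ls_p LS.fst
  have hx : LS (fun x : Qn × ℕ => x.1.2.1) := LS.comp (g := fun z : Qn => z.2.1) ls_x LS.fst
  unfold Qn.s
  exact LS.mul (ls_okU hn hT) (LS.mul (LS.lt01 (LS.const 0) hp)
    (LS.mul (LS.lt01 hp (ls_pB 0 hx hT)) (ls_accN LS.snd)))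

theorem gLPR : GoalLPR := fun _ =>
  ⟨ls_NFU, ls_n, ls_T, ls_p, ls_eU ls_n ls_T, ls_KU ls_n ls_T, ls_okU ls_n ls_T,
    ls_N, ls_q, ls_b, ls_c, ls_W, ls_s⟩

end Pool.Agent.Helper45.UR
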